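import Mathlib
import Pool.Agent.U241.HomMain

set_option autoImplicit false

/-!
# `(n - k)`-homogeneous latin squares of order `n`: for every `k ≥ 2` there are only finitely many
-/

namespace Pool.Agent.Results.MP_3713ea_co.FixedK

open Finset

open scoped Classical

/-- latin squares: the rows and the columns have pairwise distinct entries -/
def IsLatin {n : ℕ} (L : Fin n → Fin n → Fin n) : Prop :=
  (∀ r, Function.Injective (L r)) ∧ ∀ c, Function.Injective fun r => L r c

/-- the intercalates through the cell `(r, c)`, each given by its opposite corner `(r', c')` -/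
noncomputable def intercalatesAt {n : ℕ} (L : Fin n → Fin n → Fin n) (r c : Fin n) :
    Finset (Fin n × Fin n) :=
  univ.filter fun p => p.1 ≠ r ∧ p.2 ≠ c ∧ L r c = L p.1 p.2 ∧ L r p.2 = L p.1 c

/-- every cell of `L` lies in exactly `h` intercalates -/
def IsHomogeneous {n : ℕ} (h : ℕ) (L : Fin n → Fin n → Fin n) : Prop :=
  ∀ r c, (intercalatesAt L r c).card = h

/-- there is an `h`-homogeneous latin square of order `n` -/
def Attained (n h : ℕ) : Prop :=
  ∃ L : Fin n → Fin n → Fin n, IsLatin L ∧ IsHomogeneous h L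

/-- **Latin squares with many intercalates at every cell.**

(1) For `1 ≤ k ≤ n` and `12 (k - 1) < n` there is an `(n - k)`-homogeneous latin square of order `n` if
and only if `k = 1` and `n` is a power of two. So for every `k ≥ 2` the orders `n` for which there is
an `(n - k)`-homogeneous latin square of order `n` are at most `12 (k - 1)`.

(2) More generally, if every cell of a latin square of order `n` lies in at least `h` intercalates,
where `12 (n - 1 - h) < n`, then `n` is a power of two and every cell lies in exactly `n - 1`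
intercalates. -/
theorem result :
    (∀ n k : ℕ, 1 ≤ k → k ≤ n → 12 * (k - 1) < n →
      (Attained n (n - k) ↔ k = 1 ∧ ∃ m : ℕ, n = 2 ^ m)) ∧
    ∀ (n h : ℕ) (L : Fin n → Fin n → Fin n), IsLatin L → 12 * (n - 1 - h) < n →
      (∀ r c, h ≤ (intercalatesAt L r c).card) →
      (∃ m : ℕ, n = 2 ^ m) ∧ ∀ r c, (intercalatesAt L r c).card = n - 1 := by
  have h2 : ∀ (n h : ℕ) (L : Fin n → Fin n → Fin n), IsLatin L → 12 * (n - 1 - h) < n →
      (∀ r c, h ≤ (intercalatesAt L r c).card) →
      (∃ m : ℕ, n = 2 ^ m) ∧ ∀ r c, (intercalatesAt L r c).card = n - 1 :=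
    fun n h L hL hh hc => Pool.Agent.U241.Hom.many hL hh hc
  refine ⟨fun n k hk hkn hn => ⟨?_, ?_⟩, h2⟩
  · rintro ⟨L, hL, hh⟩
    obtain ⟨h3, h4⟩ := h2 n (n - k) L hL (by omega) (fun r c => (hh r c).ge)
    have hn0 : 0 < n := by omega
    have h5 := h4 ⟨0, hn0⟩ ⟨0, hn0⟩
    rw [hh] at h5
    exact ⟨by omega, h3⟩
  · rintro ⟨rfl, m, rfl⟩
    exact Pool.Agent.U241.Hom.exists_full m

end Pool.Agent.Results.MP_3713ea_co.FixedK
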